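import Pool.Agent.Helper98.TW.Basic
import Pool.Agent.Helper73.TWR.CEC

/-!
Sheet TW (MP_7a8f48_an): shared lemmas for the rows HHO, HNB, HNC.
-/

set_option linter.unusedSectionVars false

open MeasureTheory Filter Topology Finset
open scoped ComplexConjugate

namespace Pool.Agent.Helper53.TWR

open Pool.Agent.Helper16.AZ (T mm)
open Pool.Agent.Helper98.TW
open UnitAddTorus (mFourier)

section gen

variable {Ω : Type} [m0 : MeasurableSpace Ω] {μ : Measure Ω} [IsProbabilityMeasure μ]
  {𝒜 ℬ C : SA Ω} {f g F ψ φ : Ω → ℂ} {R R' : Ω → Ω}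

theorem uf_int (h : UF μ ψ) : Integrable ψ μ := by
  refine Integrable.mono' (integrable_const (1 : ℝ)) h.1.aestronglyMeasurable ?_
  filter_upwards [h.2] with x hx
  exact hx.le

theorem ce_am (hA : Lm 𝒜) (hF : Integrable F μ) (h : AM μ 𝒜 F) : μ[F|𝒜] =ᵐ[μ] F := by
  have hle : @LE.le (MeasurableSpace Ω) _ 𝒜 m0 := hA
  have : IsFiniteMeasure (μ.trim hle) := isFiniteMeasure_trim hle
  have : SigmaFinite (μ.trim hle) := IsFiniteMeasure.toSigmaFinite _
  exact condExp_of_aestronglyMeasurable' hle h hF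

theorem am_ce : AM μ 𝒜 (μ[F|𝒜]) := stronglyMeasurable_condExp.aestronglyMeasurable

/-- conditional expectations for smaller sigma algebras (up to null sets) -/
theorem ce_lq (hA : Lm 𝒜) (hC : Lm C) (h : LQ μ C 𝒜) (hF : Integrable F μ)
    (h0 : μ[F|𝒜] =ᵐ[μ] 0) : μ[F|C] =ᵐ[μ] 0 := by
  have hle : @LE.le (MeasurableSpace Ω) _ 𝒜 m0 := hA
  have hleC : @LE.le (MeasurableSpace Ω) _ C m0 := hC
  have : IsFiniteMeasure (μ.trim hle) := isFiniteMeasure_trim hle
  have : IsFiniteMeasure (μ.trim hleC) := isFiniteMeasure_trim hleC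
  have : SigmaFinite (μ.trim hle) := IsFiniteMeasure.toSigmaFinite _
  have : SigmaFinite (μ.trim hleC) := IsFiniteMeasure.toSigmaFinite _
  symm
  refine ae_eq_condExp_of_forall_setIntegral_eq hleC hF
    (fun s _ _ => (integrable_zero Ω ℂ μ).integrableOn) ?_
    (@stronglyMeasurable_zero Ω ℂ C _ _).aestronglyMeasurable
  intro s hs _
  obtain ⟨t, ht, hst⟩ := set_of_lq h hs
  rw [setIntegral_congr_set (f := F) hst, ← setIntegral_condExp hle hF ht]
  have e1 : ∫ x in t, (μ[F|𝒜]) x ∂μ = ∫ x in t, (0 : Ω → ℂ) x ∂μ :=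
    integral_congr_ae (ae_restrict_of_ae h0)
  rw [e1]
  simp

/-- iterates -/
theorem Inc.iterate (hA : IA μ 𝒜 R R') (hR : MeasurePreserving R μ μ) (hψ : UF μ ψ)
    (h : Inc μ 𝒜 R ψ) : ∀ n : ℕ, Inc μ 𝒜 R^[n] ψ
  | 0 => by
    refine am_congr (am_const 1) ?_
    filter_upwards [hψ.mul_conj] with x hx
    exact hx.symm
  | n + 1 => by
    have h1 : AM μ 𝒜 (fun x => (ψ (R^[n] (R x)) * conj (ψ (R x))) *
        (ψ (R x) * conj (ψ x))) :=
      am_mul (hA.2 _ (Inc.iterate hA hR hψ h n)).1 h
    refine am_congr h1 ?_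
    filter_upwards [hR.quasiMeasurePreserving.ae hψ.conj_mul] with x hx
    show (ψ (R^[n] (R x)) * conj (ψ (R x))) * (ψ (R x) * conj (ψ x)) =
      ψ (R^[n + 1] x) * conj (ψ x)
    rw [Function.iterate_succ_apply]
    linear_combination (ψ (R^[n] (R x)) * conj (ψ x)) * hx

/-- sigma algebras generated by fewer functions -/
theorem sg_mono {Φ Φ' : Set (Ω → ℂ)} (h : Φ ⊆ Φ') :
    @LE.le (MeasurableSpace Ω) _ (sg Φ) (sg Φ') :=
  iSup₂_le fun _ hφ => le_sg (h hφ)

theorem jo_mono {𝒜' ℬ' : SA Ω} (h1 : @LE.le (MeasurableSpace Ω) _ 𝒜 𝒜')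
    (h2 : @LE.le (MeasurableSpace Ω) _ ℬ ℬ') :
    @LE.le (MeasurableSpace Ω) _ (jo 𝒜 ℬ) (jo 𝒜' ℬ') :=
  sup_le_sup (α := MeasurableSpace Ω) h1 h2

/-- pull back of `AM` -/
theorem am_cm {Ω' : Type} [MeasurableSpace Ω'] {μ' : Measure Ω'} {π : Ω → Ω'} {ℰ : SA Ω'}
    {F : Ω' → ℂ} (hπ : MeasurePreserving π μ μ') (h : AM μ' ℰ F) :
    AM μ (cm π ℰ) (fun x => F (π x)) := by
  obtain ⟨g, hg, hFg⟩ := am_iff.1 h
  refine am_iff.2 ⟨fun x => g (π x), ?_, hπ.quasiMeasurePreserving.ae hFg⟩
  exact hg.comp (comap_measurable (m := ℰ) π)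

end gen

section tow

variable {N : ℕ} {lev : Fin N → ℕ} {f f' : Fin N → T N → U}

/-! ### characters -/

theorem ex_norm (a : Fin N → ℤ) (x : T N) : ‖ex a x‖ = 1 := by
  unfold ex
  simp only [mFourier, ContinuousMap.coe_mk, norm_prod, fourier_apply, Circle.norm_coe,
    Finset.prod_const_one]

theorem ex_cont (a : Fin N → ℤ) : Continuous (ex a) := (mFourier a).continuous

theorem ex_meas (a : Fin N → ℤ) : Measurable (ex a) := (ex_cont a).measurable

theorem ex_uf (a : Fin N → ℤ) : UF (mm N) (ex a) :=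
  ⟨ex_meas a, Eventually.of_forall fun x => ex_norm a x⟩

theorem ex_mc (a : Fin N → ℤ) (x : T N) : ex a x * conj (ex a x) = 1 := by
  rw [Complex.mul_conj, Complex.normSq_eq_norm_sq, ex_norm]
  simp

theorem ex_neg (a : Fin N → ℤ) (x : T N) : ex (-a) x = conj (ex a x) :=
  UnitAddTorus.mFourier_neg

theorem ex_add (a b : Fin N → ℤ) (x : T N) : ex (a + b) x = ex a x * ex b x :=
  UnitAddTorus.mFourier_add

theorem ex_zero (x : T N) : ex (0 : Fin N → ℤ) x = 1 := by
  unfold ex
  rw [UnitAddTorus.mFourier_zero]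
  rfl

/-- characters are additive -/
theorem ex_tr (a : Fin N → ℤ) (x y : T N) : ex a (x + y) = ex a x * ex a y := by
  unfold ex
  simp only [mFourier, ContinuousMap.coe_mk, ← Finset.prod_mul_distrib]
  refine Finset.prod_congr rfl fun i _ => ?_
  rw [Pi.add_apply, fourier_apply, fourier_apply, fourier_apply, smul_add,
    AddCircle.toCircle_add, Circle.coe_mul]

/-! ### levels -/

theorem tr_meas (lev : Fin N → ℕ) (l : ℕ) : Measurable (tr lev l : T N → T N) := by
  refine measurable_pi_iff.2 fun i => ?_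
  unfold tr
  by_cases h : lev i < l
  · simp only [h, if_true]
    exact measurable_pi_apply i
  · simp only [h, if_false]
    exact measurable_const

/-- functions of the levels `< l` -/
theorem am_tr {l : ℕ} {F : T N → ℂ} (hF : Measurable F) (h : ∀ x, F (tr lev l x) = F x) :
    AM (mm N) (AL lev l) F := by
  have : F = fun x => F (tr lev l x) := by
    funext x
    exact (h x).symm
  rw [this]
  exact am_of (hF.comp (comap_measurable (tr lev l)))

/-- a function of the levels `< l` comes from the truncation -/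
theorem tr_of_am {l : ℕ} {F : T N → ℂ} (h : AM (mm N) (AL lev l) F) :
    ∃ G : T N → ℂ, Measurable G ∧ F =ᵐ[mm N] fun x => G (tr lev l x) := by
  obtain ⟨g, hg, hFg⟩ := am_iff.1 h
  have hg' : @Measurable _ _ (MeasurableSpace.comap (tr lev l) inferInstance) _ g := hg
  obtain ⟨G, hG, hgG⟩ := Measurable.exists_eq_measurable_comp hg'
  refine ⟨G, hG, ?_⟩
  rw [hgG] at hFg
  exact hFg

theorem tr_idem {m l : ℕ} (h : m ≤ l) (x : T N) : tr lev m (tr lev l x) = tr lev m x := by
  funext i
  unfold tr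
  by_cases hi : lev i < m
  · simp [hi, hi.trans_le h]
  · simp [hi]

theorem dep_tr (ht : Tow lev f) {i : Fin N} {l : ℕ} (h : lev i ≤ l) (x : T N) :
    f i (tr lev l x) = f i x := by
  rw [← ht.dep i (tr lev l x), tr_idem h, ht.dep]

/-- the transformation acts on the levels `< m` -/
theorem tr_SS (ht : Tow lev f) (m : ℕ) (x : T N) :
    tr lev m (SS f x) = tr lev m (SS f (tr lev m x)) := by
  funext i
  unfold tr SS
  by_cases hi : lev i < m
  · simp only [hi, if_true]
    have := dep_tr ht hi.le x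
    unfold tr at this
    rw [this]
  · simp [hi]

theorem tr_SS_congr (ht : Tow lev f) {m : ℕ} {x y : T N} (h : tr lev m x = tr lev m y) :
    tr lev m (SS f x) = tr lev m (SS f y) := by
  rw [tr_SS ht m x, h, ← tr_SS ht m y]

/-- translations of the top level commute with the transformation -/
theorem tr_V (ht : Tow lev f) (l : ℕ) (x t : T N) : ∀ n : ℕ,
    tr lev (l + 1) ((SS f)^[n] (x + pk lev l t)) =
      tr lev (l + 1) ((SS f)^[n] x + pk lev l t)
  | 0 => rfl
  | n + 1 => by
    rw [Function.iterate_succ_apply', Function.iterate_succ_apply',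
      tr_SS_congr ht (tr_V ht l x t n)]
    generalize (SS f)^[n] x = y
    funext i
    unfold tr
    by_cases hi : lev i < l + 1
    · simp only [hi, if_true]
      show (y + pk lev l t) i + f i (y + pk lev l t) = (y i + f i y) + pk lev l t i
      have h1 : f i (y + pk lev l t) = f i y := by
        rw [← ht.dep i (y + pk lev l t), ← ht.dep i y]
        congr 1
        funext j
        unfold tr pk
        by_cases hj : lev j < lev i
        · have hjl : lev j ≠ l := by omega
          simp [hj, hjl]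
        · simp [hj]
      rw [h1, Pi.add_apply]
      abel
    · simp [hi]

theorem pk_add (lev : Fin N → ℕ) (l : ℕ) (s t : T N) :
    pk lev l (s + t) = pk lev l s + pk lev l t := by
  funext i
  unfold pk
  by_cases h : lev i = l <;> simp [h]

theorem pk_zero (lev : Fin N → ℕ) (l : ℕ) : pk lev l (0 : T N) = 0 := by
  funext i
  unfold pk
  simp

/-- the action of the translations of a level -/
theorem act_pk (lev : Fin N → ℕ) (l : ℕ) : Act (mm N) (fun (t : T N) x => x + pk lev l t) where
  zero := fun x => by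
    show x + pk lev l 0 = x
    rw [pk_zero, add_zero]
  add := fun s t x => by
    show x + pk lev l (s + t) = x + pk lev l t + pk lev l s
    rw [pk_add, add_assoc, add_comm (pk lev l s)]
  mp := fun t => measurePreserving_add_right (mm N) (pk lev l t)

/-! ### increments of characters -/

theorem ex_SS (a : Fin N → ℤ) (x : T N) :
    ex a (SS f x) * conj (ex a x) = ex a (fun i => f i x) := by
  have h : SS f x = x + fun i => f i x := rfl
  rw [h, ex_tr]
  linear_combination (ex a fun i => f i x) * ex_mc a x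

theorem inc_ex (ht : TI lev f f') {l : ℕ} {a : Fin N → ℤ} (ha : la lev l a)
    (hI : IA (mm N) (AL lev l) (SS f) (SS f')) (hS : Sys (mm N) (SS f) (SS f')) (p : ℕ) :
    Inc (mm N) (AL lev l) (SS f)^[p] (ex a) := by
  refine Inc.iterate hI hS.mp (ex_uf a) ?_ p
  show AM (mm N) (AL lev l) (fun x => ex a (SS f x) * conj (ex a x))
  have e : (fun x => ex a (SS f x) * conj (ex a x)) = fun x => ex a (fun i => f i x) := by
    funext x
    exact ex_SS a x
  rw [e]
  refine am_tr ?_ fun x => ?_
  · exact (ex_meas a).comp (measurable_pi_iff.2 fun i => ht.t.meas i)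
  · unfold ex
    simp only [mFourier, ContinuousMap.coe_mk]
    refine Finset.prod_congr rfl fun i _ => ?_
    by_cases hai : a i = 0
    · rw [hai, fourier_zero, fourier_zero]
    · rw [dep_tr ht.t (ha i hai).le]

end tow

end Pool.Agent.Helper53.TWR
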