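import Pool.Agent.Helper53.TWR.Base

/-!
Row HHO of the sheet TW (MP_7a8f48_an): homogeneous representatives.
-/

set_option linter.unusedSectionVars false

open MeasureTheory Filter Topology Finset
open scoped ComplexConjugate

namespace Pool.Agent.Helper53.TWR

open Pool.Agent.Helper16.AZ (T mm)
open Pool.Agent.Helper98.TW
open UnitAddTorus (mFourier)

section gen

variable {Ω : Type} [m0 : MeasurableSpace Ω] {μ : Measure Ω} [IsProbabilityMeasure μ]
  {𝒜 ℬ C : SA Ω} {F ψ φ : Ω → ℂ}

theorem mul_conj_int (hφ : UF μ φ) (hF : Integrable F μ) :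
    Integrable (fun x => F x * conj (φ x)) μ := by
  refine hF.mono (hF.1.mul hφ.conj.1.aestronglyMeasurable) ?_
  filter_upwards [hφ.2] with x hx
  rw [norm_mul, RCLike.norm_conj, hx, mul_one]

end gen

variable {N : ℕ} {lev : Fin N → ℕ} {f f' : Fin N → T N → U} {p q l : ℕ}
  {κ : Measure (T N × T N)} {C : SA (T N)}

theorem la_zero (lev : Fin N → ℕ) (l : ℕ) : la lev l (0 : Fin N → ℤ) := fun _ hi =>
  absurd rfl hi

theorem la_neg {a : Fin N → ℤ} (h : la lev l a) : la lev l (-a) := fun i hi => h i fun h0 => by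
  apply hi
  rw [Pi.neg_apply, h0, neg_zero]

/-- the elements of the next hull on the levels `< l` -/
theorem cap (hHAA : ST_HAA) (hDNS : ST_DNS) (hCHZ : ST_CHZ) (hALS : ST_ALS)
    (ht : TI lev f f') (hP : HP lev f f' p q κ C l) {F : T N → ℂ} (hF : Integrable F (mm N))
    (h1 : AM (mm N) (jo C (sg (VS lev f p q κ C l))) F) (h2 : AM (mm N) (AL lev l) F) :
    AM (mm N) C F := by
  obtain ⟨hG, h0⟩ := hHAA N lev f f' p q κ C l ht hP
  have hC : Lm C := hP.ia.1
  have hAl : Lm (AL lev l) := (hALS N lev).2.2.1 l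
  have hcei : Integrable ((mm N)[F|C]) (mm N) := integrable_condExp
  set F0 : T N → ℂ := fun x => F x - ((mm N)[F|C]) x with hF0
  have hF0i : Integrable F0 (mm N) := hF.sub hcei
  have hF0A : AM (mm N) (AL lev l) F0 := am_sub h2 (hP.le _ am_ce)
  have hce : (mm N)[F0|C] =ᵐ[mm N] 0 := by
    have e1 := condExp_sub hF hcei C
    have e2 : (mm N)[(mm N)[F|C]|C] =ᵐ[mm N] (mm N)[F|C] := ce_am hC hcei am_ce
    filter_upwards [e1, e2] with x x1 x2
    show ((mm N)[F - (mm N)[F|C]|C]) x = 0
    rw [x1, Pi.sub_apply, x2, sub_self]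
  have hD := hDNS (T N) (mm N) C (VS lev f p q κ C l) F0 hC hG hF0i
    (am_sub h1 (am_jo_left am_ce)) (fun φ hφ => by
      have hφP := hφ.1
      obtain ⟨hφu, ⟨a, ha, hag⟩, -⟩ := hφP
      by_cases ha0 : a = 0
      · have hφA : AM (mm N) (AL lev l) φ := by
          refine am_congr hag (Eventually.of_forall fun x => ?_)
          show conj (ex a x) * φ x = φ x
          rw [ha0, ex_zero, map_one, one_mul]
        have hφC := h0 φ hφ hφA
        have e1 : (fun x => F0 x * conj (φ x)) = fun x => conj (φ x) * F0 x := by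
          funext x
          ring
        rw [e1]
        have e2 := Pool.Agent.Helper73.TWR.pull (μ := mm N) (𝒜 := C) (f := fun x => conj (φ x))
          (g := F0) (am_conj hφC) (by
            rw [← e1]
            exact mul_conj_int hφu hF0i) hF0i
        filter_upwards [e2, hce] with x x2 x3
        rw [x2, x3]
        simp
      · have hgu : UF (mm N) (fun x => conj (ex a x) * φ x) := (ex_uf a).conj.mul hφu
        have hGi : Integrable (fun x => F0 x * conj (conj (ex a x) * φ x)) (mm N) :=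
          mul_conj_int hgu hF0i
        have e1 := hCHZ N lev l (-a) (neg_ne_zero.2 ha0) (la_neg ha)
          (fun x => F0 x * conj (conj (ex a x) * φ x)) hGi (am_mul hF0A (am_conj hag))
        have e2 : (fun x => F0 x * conj (φ x)) =
            fun x => ex (-a) x * (F0 x * conj (conj (ex a x) * φ x)) := by
          funext x
          rw [ex_neg, map_mul, Complex.conj_conj]
          linear_combination (-(F0 x * conj (φ x))) * ex_mc a x
        rw [e2]
        refine ce_lq hAl hC hP.le ?_ e1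
        rw [← e2]
        exact mul_conj_int hφu hF0i)
  have hFe : F =ᵐ[mm N] (mm N)[F|C] := by
    filter_upwards [hD] with x hx
    have : F x - ((mm N)[F|C]) x = 0 := hx
    exact sub_eq_zero.1 this
  exact am_congr am_ce hFe.symm

/-- the sigma algebra of the levels `< l` is generated by characters -/
theorem AL_le_sg (hALS : ST_ALS) (lev : Fin N → ℕ) : ∀ l : ℕ,
    @LE.le (MeasurableSpace (T N)) _ (AL lev l) (sg {ψ | ∃ a, lb lev l a ∧ ψ = ex a})
  | 0 => by
    rw [(hALS N lev).1]
    exact bot_le (α := MeasurableSpace (T N))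
  | l + 1 => by
    rw [(hALS N lev).2.1 l]
    refine sup_le (α := MeasurableSpace (T N)) ((AL_le_sg hALS lev l).trans (sg_mono ?_))
      (sg_mono ?_)
    · rintro ψ ⟨a, ha, rfl⟩
      exact ⟨a, fun i hi => (ha i hi).trans (Nat.lt_succ_self l), rfl⟩
    · rintro ψ ⟨a, ha, rfl⟩
      exact ⟨a, fun i hi => by rw [ha i hi]; exact Nat.lt_succ_self l, rfl⟩

theorem grp_lb (lev : Fin N → ℕ) (l : ℕ) :
    Grp (mm N) {ψ : T N → ℂ | ∃ a, lb lev l a ∧ ψ = ex a} where
  uf := by
    rintro φ ⟨a, -, rfl⟩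
    exact ex_uf a
  one := ⟨0, fun i hi => absurd rfl hi, by funext x; exact (ex_zero x).symm⟩
  mul := by
    rintro φ ⟨a, ha, rfl⟩ ψ ⟨b, hb, rfl⟩
    refine ⟨a + b, fun i hi => ?_, by funext x; exact (ex_add a b x).symm⟩
    by_cases h : a i = 0
    · refine hb i fun h' => hi ?_
      rw [Pi.add_apply, h, h', add_zero]
    · exact ha i h
  inv := by
    rintro φ ⟨a, ha, rfl⟩
    refine ⟨-a, fun i hi => ha i fun h => hi ?_, by funext x; exact (ex_neg a x).symm⟩
    rw [Pi.neg_apply, h, neg_zero]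

/-- HHO -/
theorem st_HHO (hHIA : ST_HIA) (hHAA : ST_HAA) (hLT : ST_LT) (hCT : ST_CT) (hGL : ST_GL)
    (hTCA : ST_TCA) (hTRV : ST_TRV) (hCHZ : ST_CHZ) (hDNS : ST_DNS) (hIAJ : ST_IAJ)
    (hALS : ST_ALS) (hMPS : ST_MPS) (hIAL : ST_IAL) : ST_HHO := by
  intro N lev f f' p q κ C l ht hMR hEG hp hq hpq hP ψ hψ hψA hψI
  obtain ⟨iaC, lqC, iaV⟩ := hHIA N lev f f' p q κ C l ht hp hq hpq hP
  set C' : SA (T N) := jo C (sg (VS lev f p q κ C l)) with hC'
  have hS1 : Sys (mm N) (SS f) (SS f') := by
    have := hMPS N lev f f' ht 1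
    simpa using this
  have hS := hMPS N lev f f' ht p
  have hErg : Ergodic (SS f)^[p] (mm N) := (hEG p hp.one_le).1
  have iaCp : IA (mm N) C' (SS f)^[p] (SS f')^[p] := iaC.iterate p
  have iaA := hIAL N lev f f' ht l p
  have iaA1 : IA (mm N) (AL lev l) (SS f) (SS f') := by
    have := hIAL N lev f f' ht l 1
    simpa using this
  obtain ⟨-, hAL, hALm, hALq, -, hGCH, hexA⟩ := hALS N lev
  -- the character
  obtain ⟨φ0, ⟨a, ha, rfl⟩, hφ0⟩ := hLT (T N) (mm N) (SS f)^[p] (SS f')^[p]
    (jo C' (AL lev l)) (CH lev l) ψ hS hErg ((hIAJ (T N) (mm N) _ _ hS).1 _ _ iaCp iaA)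
    (hGCH l) (fun φ hφ => by
      obtain ⟨b, hb, rfl⟩ := hφ
      exact Inc.lq lq_jo_right (inc_ex ht hb iaA1 hS1 p)) hψ (by
      rw [hAL l] at hψA
      exact am_mono (jo_mono le_jo_right le_rfl) hψA) (Inc.lq lq_jo_left hψI)
  set c : T N → ℂ := fun x => ψ x * conj (ex a x) with hc
  have hcu : UF (mm N) c := hψ.mul (ex_uf a).conj
  have hexl : AM (mm N) (AL lev (l + 1)) (ex a) := hexA l (l + 1) a (Nat.lt_succ_self l) ha
  have hcA : AM (mm N) (AL lev (l + 1)) c := am_mul hψA (am_conj hexl)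
  have hAct := act_pk (N := N) lev l
  -- the connectedness trick
  have hct := hCT (T N) (mm N) (SS f)^[p] (SS f')^[p] C' N (fun t x => x + pk lev l t) ψ hS hErg
    iaCp hAct iaV hψ (fun t => by
      have hb : AM (mm N) C' (fun x => ψ ((SS f)^[p] x) * conj (ψ x)) := hψI
      have hbV := (iaV t).2 _ hb
      refine am_congr (am_mul hbV.1 (am_conj hb)) ?_
      obtain ⟨G, hG, hψG⟩ := tr_of_am hψA
      have hmpV := hAct.mp t
      have k1 : ∀ᵐ x ∂(mm N), ψ ((SS f)^[p] (x + pk lev l t)) =
          G (tr lev (l + 1) ((SS f)^[p] (x + pk lev l t))) :=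
        hmpV.quasiMeasurePreserving.ae (hS.mp.quasiMeasurePreserving.ae hψG)
      have k2 : ∀ᵐ x ∂(mm N), ψ ((SS f)^[p] x + pk lev l t) =
          G (tr lev (l + 1) ((SS f)^[p] x + pk lev l t)) :=
        hS.mp.quasiMeasurePreserving.ae (hmpV.quasiMeasurePreserving.ae hψG)
      filter_upwards [k1, k2] with x x1 x2
      have e : ψ ((SS f)^[p] (x + pk lev l t)) = ψ ((SS f)^[p] x + pk lev l t) := by
        rw [x1, x2, tr_V ht.t]
      show ψ ((SS f)^[p] (x + pk lev l t)) * conj (ψ (x + pk lev l t)) *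
        conj (ψ ((SS f)^[p] x) * conj (ψ x)) =
        ψ ((SS f)^[p] x + pk lev l t) * conj (ψ ((SS f)^[p] x)) *
        conj (ψ (x + pk lev l t) * conj (ψ x))
      rw [e]
      simp only [map_mul, Complex.conj_conj]
      ring)
    (hTCA (T N) (mm N) N (fun t x => x + pk lev l t) ψ hAct (by
      have hpk : Continuous (pk lev l : T N → T N) := by
        refine continuous_pi fun i => ?_
        unfold pk
        by_cases h : lev i = l
        · simp only [h, if_true]
          exact continuous_apply i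
        · simp only [h, if_false]
          exact continuous_const
      exact continuous_snd.add (hpk.comp continuous_fst)) (by
      refine MemLp.of_bound hψ.1.aestronglyMeasurable 1 ?_
      filter_upwards [hψ.2] with x hx
      exact hx.le))
  -- gluing
  have hcV : ∀ t : T N, AM (mm N) C' (fun x => c (x + pk lev l t) * conj (c x)) := by
    intro t
    refine am_congr (am_mul (hct t) (am_const (conj (ex a (pk lev l t)))))
      (Eventually.of_forall fun x => ?_)
    show ψ (x + pk lev l t) * conj (ψ x) * conj (ex a (pk lev l t)) =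
      ψ (x + pk lev l t) * conj (ex a (x + pk lev l t)) * conj (ψ x * conj (ex a x))
    rw [ex_tr]
    simp only [map_mul, Complex.conj_conj]
    linear_combination (-(ψ (x + pk lev l t) * conj (ψ x) * conj (ex a (pk lev l t)))) *
      ex_mc a x
  obtain ⟨w, hw, hwC, hwV⟩ := hGL (T N) (mm N) C' N (fun t x => x + pk lev l t)
    {ψ | ∃ a, lb lev l a ∧ ψ = ex a} c iaC.1 hAct iaV (grp_lb lev l) (by
      have : {ψ : T N → ℂ | ∃ a, lb lev l a ∧ ψ = ex a} ⊆ Set.range (fun a => ex a) := by
        rintro ψ ⟨a, -, rfl⟩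
        exact ⟨a, rfl⟩
      exact (Set.countable_range _).mono this) (by
      rintro φ ⟨b, hb, rfl⟩ t
      refine Eventually.of_forall fun x => ?_
      show ex b (x + pk lev l t) = ex b x
      unfold ex
      simp only [mFourier, ContinuousMap.coe_mk]
      refine Finset.prod_congr rfl fun i _ => ?_
      by_cases hbi : b i = 0
      · rw [hbi, fourier_zero, fourier_zero]
      · have : lev i ≠ l := (hb i hbi).ne
        have e : pk lev l t i = 0 := by
          unfold pk
          simp [this]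
        rw [Pi.add_apply, e, add_zero]) hcu
      (am_mono (jo_mono le_rfl (AL_le_sg hALS lev l)) hφ0) hcV
  -- the function on the levels below
  set g : T N → ℂ := fun x => c x * conj (w x) with hg
  have hgu : UF (mm N) g := hcu.mul hw.conj
  have hwA : AM (mm N) (AL lev (l + 1)) w := lqC _ hwC
  have hgA : AM (mm N) (AL lev l) g :=
    hTRV N lev l g (uf_int hgu) (am_mul hcA (am_conj hwA)) fun t => hwV t
  have hφu : UF (mm N) (fun x => ψ x * conj (w x)) := hψ.mul hw.conj
  have eφ : ∀ x, ψ x * conj (w x) = g x * ex a x := by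
    intro x
    show ψ x * conj (w x) = ψ x * conj (ex a x) * conj (w x) * ex a x
    linear_combination (-(ψ x * conj (w x))) * ex_mc a x
  have hI1 : Inc (mm N) C' (SS f)^[p] (fun x => ψ x * conj (w x)) :=
    Inc.mul hψI (Inc.conj (inc_of_am iaCp hwC))
  have hI2 : Inc (mm N) (AL lev l) (SS f)^[p] (fun x => ψ x * conj (w x)) := by
    have h1 := Inc.mul (inc_of_am iaA hgA) (inc_ex ht ha iaA1 hS1 p)
    exact Inc.congr hS.mp h1 (Eventually.of_forall fun x => (eφ x).symm)
  refine ⟨w, fun x => ψ x * conj (w x), hw, hwC, ⟨hφu, ⟨a, ha, ?_⟩, ?_⟩, ?_⟩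
  · refine am_congr hgA (Eventually.of_forall fun x => ?_)
    show ψ x * conj (ex a x) * conj (w x) = conj (ex a x) * (ψ x * conj (w x))
    ring
  · refine cap hHAA hDNS hCHZ hALS ht hP ?_ hI1 hI2
    exact uf_int ((hφu.comp hS.mp).mul hφu.conj)
  · filter_upwards [hw.mul_conj] with x hx
    linear_combination (-(ψ x)) * hx

end Pool.Agent.Helper53.TWR
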