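import Pool.Agent.Helper53.TWR.HNC

/-!
Row HNB of the sheet TW (MP_7a8f48_an): property (b) of the next hull.
-/

set_option linter.unusedSectionVars false

open MeasureTheory Filter Topology Finset
open scoped ComplexConjugate

namespace Pool.Agent.Helper53.TWR

open Pool.Agent.Helper16.AZ (T mm)
open Pool.Agent.Helper98.TW
open UnitAddTorus (mFourier)

/-- inverse images of invariant sigma algebras -/
theorem ia_cm (hPFC : ST_PFC) {Ω Ω' : Type} [MeasurableSpace Ω] [MeasurableSpace Ω']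
    {μ : Measure Ω} [IsProbabilityMeasure μ] {μ' : Measure Ω'} [IsProbabilityMeasure μ']
    {π : Ω → Ω'} {𝒜 : SA Ω'} {R R' : Ω → Ω} {S S' : Ω' → Ω'} (hπ : MeasurePreserving π μ μ')
    (hR : Sys μ R R') (h : IA μ' 𝒜 S S') (e : ∀ z, π (R z) = S (π z))
    (e' : ∀ z, π (R' z) = S' (π z)) : IA μ (cm π 𝒜) R R' := by
  refine ⟨lm_cm hπ.measurable h.1, fun G hG => ?_⟩
  obtain ⟨F, -, hF, hGF⟩ := (hPFC Ω Ω' μ μ' π 𝒜 hπ h.1).2.2 G hG
  constructor
  · refine am_congr (am_cm hπ (h.2 F hF).1) ?_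
    filter_upwards [hR.mp.quasiMeasurePreserving.ae hGF] with z hz
    rw [hz, e]
  · refine am_congr (am_cm hπ (h.2 F hF).2) ?_
    filter_upwards [hR.mp'.quasiMeasurePreserving.ae hGF] with z hz
    rw [hz, e']

/-- the whole sigma algebra is invariant -/
theorem ia_top {Ω : Type} [m0 : MeasurableSpace Ω] {μ : Measure Ω} {R R' : Ω → Ω}
    (hR : Sys μ R R') : IA μ (m0 : SA Ω) R R' :=
  ⟨le_rfl, fun _ hf => ⟨hf.comp_measurePreserving hR.mp, hf.comp_measurePreserving hR.mp'⟩⟩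

theorem prod_iter {X : Type} (a b : X → X) (z : X × X) :
    Prod.map a b z = (a z.1, b z.2) := rfl

/-- HNB -/
theorem st_HNB (hHHO : ST_HHO) (hHAA : ST_HAA) (hLT : ST_LT) (hTRM : ST_TRM) (hPFC : ST_PFC)
    (hIAJ : ST_IAJ) (hMPS : ST_MPS) : ST_HNB := by
  intro N lev f f' p q κ C l ht hMR hEG hJ hp hq hpq hP ψ hψ hψA hψI hψV
  have := hJ.prob
  obtain ⟨w, φ, hw, hwC, hφ, he⟩ := hHHO N lev f f' p q κ C l ht hMR hEG hp hq hpq hP ψ hψ hψA
    hψI
  obtain ⟨hG, -⟩ := hHAA N lev f f' p q κ C l ht hP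
  obtain ⟨hφu, ⟨a, ha, hφa⟩, hφI⟩ := id hφ
  obtain ⟨-, -, -, hSκ, -, -⟩ := hTRM N lev f f' p q κ ht hJ 0 0
  have hSp := hMPS N lev f f' ht p
  have hSq := hMPS N lev f f' ht q
  -- the sigma algebra of the second coordinate and `C`
  have ia1 : IA κ (BB N) (Prod.map (SS f)^[p] (SS f)^[q]) (Prod.map (SS f')^[p] (SS f')^[q]) :=
    ia_cm hPFC (mp_snd hJ) hSκ (ia_top hSq) (fun z => rfl) (fun z => rfl)
  have ia2 : IA κ (cm Prod.fst C) (Prod.map (SS f)^[p] (SS f)^[q])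
      (Prod.map (SS f')^[p] (SS f')^[q]) :=
    ia_cm hPFC (mp_fst hJ) hSκ (hP.ia.iterate p) (fun z => rfl) (fun z => rfl)
  have ia3 := (hIAJ (T N × T N) κ _ _ hSκ).1 _ _ ia1 ia2
  set Φ : Set (T N × T N → ℂ) := {G | ∃ g ∈ VS lev f p q κ C l, G = fun z => g z.1} with hΦ
  have hgrp : Grp κ Φ := by
    refine ⟨?_, ⟨_, hG.one, rfl⟩, ?_, ?_⟩
    · rintro G ⟨g, hg, rfl⟩
      exact (hG.uf g hg).comp (mp_fst hJ)
    · rintro G ⟨g, hg, rfl⟩ G' ⟨g', hg', rfl⟩
      exact ⟨_, hG.mul g hg g' hg', rfl⟩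
    · rintro G ⟨g, hg, rfl⟩
      exact ⟨_, hG.inv g hg, rfl⟩
  have hinc : ∀ g : T N → ℂ, Inc (mm N) C (SS f)^[p] g →
      Inc κ (jo (BB N) (cm Prod.fst C)) (Prod.map (SS f)^[p] (SS f)^[q]) (fun z => g z.1) :=
    fun g hg => am_jo_right (am_cm (mp_fst hJ) hg)
  -- `φ` is visible over the next hull
  have hφV : Vis κ (jo C (sg (VS lev f p q κ C l))) φ := by
    have h1 : Vis κ (jo C (sg (VS lev f p q κ C l))) (fun x => conj (w x) * ψ x) :=
      vis_mul (vis_of_am hJ (am_conj hwC)) hψV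
    refine vis_congr hJ h1 ?_
    filter_upwards [he, hw.conj_mul] with x x1 x2
    rw [x1, ← mul_assoc, x2, one_mul]
  have hle : @LE.le (MeasurableSpace (T N × T N)) _
      (jo (BB N) (cm Prod.fst (jo C (sg (VS lev f p q κ C l)))))
      (jo (jo (BB N) (cm Prod.fst C)) (sg Φ)) := by
    refine sup_le (α := MeasurableSpace (T N × T N)) ?_ ?_
    · exact (le_jo_left).trans le_jo_left
    · have e1 : cm (Prod.fst : T N × T N → T N) (jo C (sg (VS lev f p q κ C l))) =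
          jo (cm Prod.fst C) (cm Prod.fst (sg (VS lev f p q κ C l))) :=
        MeasurableSpace.comap_sup
      rw [e1]
      refine sup_le (α := MeasurableSpace (T N × T N)) (le_jo_right.trans le_jo_left)
        (le_trans ?_ le_jo_right)
      have e2 : cm (Prod.fst : T N × T N → T N) (sg (VS lev f p q κ C l)) =
          (⨆ φ ∈ VS lev f p q κ C l, MeasurableSpace.comap (Prod.fst : T N × T N → T N)
            (MeasurableSpace.comap φ (inferInstance : MeasurableSpace ℂ)) :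
            MeasurableSpace (T N × T N)) := by
        show MeasurableSpace.comap _ (⨆ φ ∈ VS lev f p q κ C l, _) = _
        simp only [MeasurableSpace.comap_iSup]
      rw [e2]
      refine iSup₂_le fun g hg => ?_
      rw [MeasurableSpace.comap_comp]
      exact le_sg (Φ := Φ) (φ := fun z => g z.1) ⟨g, hg, rfl⟩
  obtain ⟨G, ⟨g, hg, rfl⟩, hgy⟩ := hLT (T N × T N) κ _ _ (jo (BB N) (cm Prod.fst C)) Φ
    (fun z => φ z.1) hSκ hJ.erg ia3 hgrp (by
      rintro G ⟨g, hg, rfl⟩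
      exact hinc g hg.1.2.2) (hφu.comp (mp_fst hJ)) (am_mono hle hφV) (hinc φ hφI)
  -- the quotient belongs to `VS`
  obtain ⟨hgP, -⟩ := id hg
  obtain ⟨hgu, ⟨b, hb, hgb⟩, hgI⟩ := id hgP
  have hy : (fun x => φ x * conj (g x)) ∈ VS lev f p q κ C l := by
    refine ⟨⟨hφu.mul hgu.conj, ⟨a - b, ?_, ?_⟩, Inc.mul hφI (Inc.conj hgI)⟩, 1, le_rfl,
      Nat.coprime_one_left q, ?_⟩
    · intro i hi
      by_cases h : a i = 0
      · refine hb i fun h' => hi ?_
        rw [Pi.sub_apply, h, h', sub_zero]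
      · exact ha i h
    · refine am_congr (am_mul hφa (am_conj hgb)) (Eventually.of_forall fun x => ?_)
      show conj (ex a x) * φ x * conj (conj (ex b x) * g x) =
        conj (ex (a - b) x) * (φ x * conj (g x))
      rw [sub_eq_add_neg, ex_add, ex_neg]
      simp only [map_mul, Complex.conj_conj]
      ring
    · have : Vis κ C (fun x => φ x * conj (g x)) := hgy
      simpa only [pow_one] using this
  have hyC := am_jo_right (μ := mm N) (𝒜 := C) (am_sg (μ := mm N) hy)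
  have hgC := am_jo_right (μ := mm N) (𝒜 := C) (am_sg (μ := mm N) hg)
  refine am_congr (am_mul hwC (am_mul hyC hgC)) ?_
  filter_upwards [he, hgu.conj_mul] with x x1 x2
  rw [x1]
  linear_combination (w x * φ x) * x2

end Pool.Agent.Helper53.TWR
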