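import Pool.Agent.Helper53.TWR.HHO

/-!
Row HNC of the sheet TW (MP_7a8f48_an): property (c) of the next hull.
-/

set_option linter.unusedSectionVars false

open MeasureTheory Filter Topology Finset
open scoped ComplexConjugate

namespace Pool.Agent.Helper53.TWR

open Pool.Agent.Helper16.AZ (T mm)
open Pool.Agent.Helper98.TW
open UnitAddTorus (mFourier)

variable {N : ℕ} {lev : Fin N → ℕ} {f f' : Fin N → T N → U} {p q l : ℕ}
  {κ : Measure (T N × T N)} {C : SA (T N)}

theorem mp_fst (h : JN f p q κ) : MeasurePreserving (Prod.fst : T N × T N → T N) κ (mm N) :=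
  ⟨measurable_fst, h.fst⟩

theorem mp_snd (h : JN f p q κ) : MeasurePreserving (Prod.snd : T N × T N → T N) κ (mm N) :=
  ⟨measurable_snd, h.snd⟩

/-- functions in the hull are visible -/
theorem vis_of_am (h : JN f p q κ) {ψ : T N → ℂ} (hψ : AM (mm N) C ψ) : Vis κ C ψ := by
  have := h.prob
  exact am_jo_right (am_cm (mp_fst h) hψ)

theorem vis_mul {ψ φ : T N → ℂ} (h1 : Vis κ C ψ) (h2 : Vis κ C φ) :
    Vis κ C (fun x => ψ x * φ x) := am_mul h1 h2

theorem vis_pow {ψ : T N → ℂ} (h1 : Vis κ C ψ) (n : ℕ) : Vis κ C (fun x => ψ x ^ n) :=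
  am_pow h1 n

theorem vis_congr (h : JN f p q κ) {ψ φ : T N → ℂ} (h1 : Vis κ C ψ) (he : ψ =ᵐ[mm N] φ) :
    Vis κ C φ := by
  have := h.prob
  exact am_congr h1 ((mp_fst h).quasiMeasurePreserving.ae he)

/-- HNC -/
theorem st_HNC (hHHO : ST_HHO) (hHAA : ST_HAA) (hLT : ST_LT) (hMPS : ST_MPS) : ST_HNC := by
  intro N lev f f' p q κ C l ht hMR hEG hJ hp hq hpq hP ψ hψ hψA hψI M hM1 hMq hψM
  obtain ⟨w, φ, hw, hwC, hφ, he⟩ := hHHO N lev f f' p q κ C l ht hMR hEG hp hq hpq hP ψ hψ hψA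
    hψI
  have hS := hMPS N lev f f' ht p
  have hErg : Ergodic (SS f)^[p] (mm N) := (hEG p hp.one_le).1
  obtain ⟨hG, -⟩ := hHAA N lev f f' p q κ C l ht hP
  obtain ⟨hφu, hφa, hφI⟩ := id hφ
  -- the power of `φ`
  have hφM : AM (mm N) (jo C (sg (VS lev f p q κ C l))) (fun x => φ x ^ M) := by
    refine am_congr (am_mul hψM (am_pow (am_conj hwC) M)) ?_
    filter_upwards [he, hw.mul_conj] with x x1 x2
    have : (w x * conj (w x)) ^ M = 1 := by rw [x2, one_pow]
    rw [x1, mul_pow]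
    calc w x ^ M * φ x ^ M * conj (w x) ^ M = (w x * conj (w x)) ^ M * φ x ^ M := by
          rw [mul_pow]
          ring
      _ = φ x ^ M := by rw [this, one_mul]
  obtain ⟨g, hg, hgC⟩ := hLT (T N) (mm N) (SS f)^[p] (SS f')^[p] C (VS lev f p q κ C l)
    (fun x => φ x ^ M) hS hErg (hP.ia.iterate p) hG (fun g hg => hg.1.2.2) (hφu.pow M) hφM
    (Inc.pow hφI M)
  obtain ⟨hgP, M', hM'1, hM'q, hgV⟩ := id hg
  have hφV : φ ∈ VS lev f p q κ C l := by
    refine ⟨hφ, M * M', ?_, Nat.Coprime.mul_left hMq hM'q, ?_⟩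
    · exact Nat.one_le_iff_ne_zero.2 (Nat.mul_ne_zero (by omega) (by omega))
    · refine vis_congr hJ (vis_mul hgV (vis_pow (vis_of_am hJ hgC) M')) ?_
      filter_upwards [hgP.1.mul_conj] with x hx
      have h1 : (g x * conj (g x)) ^ M' = 1 := by rw [hx, one_pow]
      rw [pow_mul]
      calc g x ^ M' * (φ x ^ M * conj (g x)) ^ M' =
            (g x * conj (g x)) ^ M' * (φ x ^ M) ^ M' := by
            rw [mul_pow, mul_pow]
            ring
        _ = (φ x ^ M) ^ M' := by rw [h1, one_mul]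
  exact am_congr (am_mul hwC (am_jo_right (am_sg hφV))) he.symm

end Pool.Agent.Helper53.TWR
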